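import Pool.Agent.J6H49.SY.Z2
import Pool.Agent.J6H3.SY.Exp

/-!
# Module S2-EXP: random systems of equations avoid a given set of sums
-/

set_option autoImplicit false

open Finset

namespace Pool.Agent.J6H78.S2Exp

open Pool.Agent.J6H94.TSp (choose_mul_pow_le sum_lt_of_pow)
open Pool.Agent.J6H3.SY (nb two_mul_nb card_into)
open Pool.Agent.J6H49.SY.Z2 (od)

theorem two_nb {n q : ℕ} (f : Fin q → Fin 3 → Fin n) (S : Finset (Fin q)) :
    2 * (nb f S).card ≤ 3 * S.card + (od f S).card := two_mul_nb f S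

theorem od_sub {n q : ℕ} (f : Fin q → Fin 3 → Fin n) (S : Finset (Fin q)) : od f S ⊆ nb f S := by
  intro e he
  have h1 := (mem_filter.1 he).2
  obtain ⟨v, hv⟩ := card_pos.1 h1.pos
  rw [mem_filter] at hv
  exact mem_image.2 ⟨(v, e.2), mem_product.2 ⟨hv.1, mem_univ _⟩, Prod.ext hv.2 rfl⟩

/-- the main estimate -/
theorem est {C n k u M : ℕ} (hk : 1 ≤ k) (hu : 2 * u ≤ 3 * k) (hku : k ≤ u) (hM : M = 10 ^ 6 * C)
    (hC : 1 ≤ C) (hn : M ^ 2 * k ≤ n) :
    (C * n).choose k * ((3 * n).choose u * (5 * k) ^ (3 * k)) * 90 ^ k ≤ n ^ (3 * k) := by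
  have hk0 : 0 < k ^ k := pow_pos (by omega) k
  refine Nat.le_of_mul_le_mul_left ?_ hk0
  have e1 : k ^ (3 * k) = k ^ k * (k ^ u * k ^ (2 * k - u)) := by
    rw [← pow_add, ← pow_add]; congr 1; omega
  have e2 := choose_mul_pow_le (C * n) k
  have e3 := choose_mul_pow_le (3 * n) u
  have e4 : k ^ u ≤ u ^ u := Nat.pow_le_pow_left hku _
  have e5 : 9 ^ u ≤ 27 ^ k := by
    calc 9 ^ u = 3 ^ (2 * u) := by rw [pow_mul]; norm_num
      _ ≤ 3 ^ (3 * k) := Nat.pow_le_pow_right (by norm_num) hu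
      _ = 27 ^ k := by rw [pow_mul]; norm_num
  have hM1 : 1 ≤ M := by omega
  have e7 : M ^ k * k ^ (2 * k - u) ≤ n ^ (2 * k - u) := by
    calc M ^ k * k ^ (2 * k - u) ≤ M ^ (2 * (2 * k - u)) * k ^ (2 * k - u) :=
          Nat.mul_le_mul_right _ (Nat.pow_le_pow_right hM1 (by omega))
      _ = (M ^ 2 * k) ^ (2 * k - u) := by rw [mul_pow, ← pow_mul]
      _ ≤ n ^ (2 * k - u) := Nat.pow_le_pow_left hn _
  have e8 : (3 * C) ^ k * 27 ^ k * 125 ^ k * 90 ^ k ≤ M ^ k := by
    rw [← mul_pow, ← mul_pow, ← mul_pow]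
    refine Nat.pow_le_pow_left ?_ _
    rw [hM]
    omega
  calc k ^ k * ((C * n).choose k * ((3 * n).choose u * (5 * k) ^ (3 * k)) * 90 ^ k)
      = k ^ k * (((C * n).choose k * k ^ k) * ((3 * n).choose u * k ^ u) * k ^ (2 * k - u) *
          125 ^ k * 90 ^ k) := by
        have h1 : (5 * k) ^ (3 * k) = 125 ^ k * (k ^ k * (k ^ u * k ^ (2 * k - u))) := by
          rw [mul_pow, e1, pow_mul 5 3 k]; norm_num
        rw [h1]; ring
    _ ≤ k ^ k * ((3 * (C * n)) ^ k * (3 * (3 * n)) ^ u * k ^ (2 * k - u) * 125 ^ k * 90 ^ k) := by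
        have h1 : (3 * n).choose u * k ^ u ≤ (3 * (3 * n)) ^ u :=
          (Nat.mul_le_mul_left _ e4).trans e3
        gcongr
    _ = k ^ k * (((3 * C) ^ k * 9 ^ u * 125 ^ k * 90 ^ k) * (n ^ (k + u) * k ^ (2 * k - u))) := by
        have h1 : 3 * (3 * n) = 9 * n := by ring
        have h2 : 3 * (C * n) = 3 * C * n := by ring
        rw [h1, h2, mul_pow, mul_pow 9 n, pow_add]
        ring
    _ ≤ k ^ k * (((3 * C) ^ k * 27 ^ k * 125 ^ k * 90 ^ k) * (n ^ (k + u) * k ^ (2 * k - u))) := by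
        gcongr
    _ ≤ k ^ k * (M ^ k * (n ^ (k + u) * k ^ (2 * k - u))) := by gcongr
    _ = k ^ k * ((M ^ k * k ^ (2 * k - u)) * n ^ (k + u)) := by ring
    _ ≤ k ^ k * (n ^ (2 * k - u) * n ^ (k + u)) := by gcongr
    _ = k ^ k * n ^ (3 * k) := by
        rw [← pow_add]
        congr 2
        omega

/-- **S2-EXP** -/
theorem main : Pool.Agent.J6H49.SY.Z2.S_EXP3 := by
  classical
  intro C n hC hn W hW
  by_contra hcon
  obtain ⟨M, hM⟩ : ∃ M, M = 10 ^ 6 * C := ⟨_, rfl⟩
  rw [← hM] at hcon hW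
  obtain ⟨r, hr⟩ : ∃ r, r = n / M ^ 2 := ⟨_, rfl⟩
  rw [← hr] at hcon hW
  have hM1 : 1 ≤ M := by omega
  have hM3 : 1 ≤ M ^ 2 := Nat.one_le_pow _ _ hM1
  have hrn : M ^ 2 * r ≤ n := hr ▸ Nat.mul_div_le n (M ^ 2)
  have hrn' : r ≤ n := hr ▸ Nat.div_le_self _ _
  have hnC : n ≤ C * n := Nat.le_mul_of_pos_left _ hC
  set wk : ℕ → Finset (Finset (Fin n × Fin 3)) := fun k =>
    (if r < 2 * k then insert ∅ W else {∅}).filter fun w => w.card ≤ 3 * k with hwk
  have hwkc : ∀ k, (wk k).card * 4 ^ k ≤ 16 ^ k := by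
    intro k
    have h1 : (wk k).card ≤ 4 ^ k := by
      refine (card_filter_le _ _).trans ?_
      split_ifs with h
      · refine (card_insert_le _ _).trans ?_
        have h2 : 2 ^ r + 1 ≤ 4 ^ k := by
          obtain ⟨j, hj⟩ : ∃ j, 2 * k = j + 1 := ⟨2 * k - 1, by omega⟩
          have h3 : (4 : ℕ) ^ k = 2 ^ (j + 1) := by
            rw [← hj, pow_mul]; norm_num
          have h4 : (2 : ℕ) ^ r ≤ 2 ^ j := Nat.pow_le_pow_right (by norm_num) (by omega)
          have h5 : 1 ≤ 2 ^ j := Nat.one_le_two_pow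
          rw [h3, pow_succ]
          omega
        omega
      · rw [card_singleton]
        exact Nat.one_le_pow _ _ (by norm_num)
    calc (wk k).card * 4 ^ k ≤ 4 ^ k * 4 ^ k := Nat.mul_le_mul_right _ h1
      _ = 16 ^ k := by rw [← mul_pow]; norm_num
  set bad : ℕ → Finset (Fin (C * n) → Fin 3 → Fin n) := fun k =>
    (wk k).biUnion fun w =>
    (powersetCard k (univ : Finset (Fin (C * n)))).biUnion fun S =>
      (powersetCard (3 * k / 2) (univ : Finset (Fin n × Fin 3))).biUnion fun W' =>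
        univ.filter fun f : Fin (C * n) → Fin 3 → Fin n => ∀ v ∈ S, ∀ t, (f v t, t) ∈ w ∪ W'
    with hbad
  have hcover : (univ : Finset (Fin (C * n) → Fin 3 → Fin n)) ⊆ (Icc 1 r).biUnion bad := by
    intro f _
    have key : ∃ S : Finset (Fin (C * n)), S.card ≤ r ∧ 0 < S.card ∧
        (od f S = ∅ ∨ (r < 2 * S.card ∧ od f S ∈ W)) := by
      by_contra h
      push Not at h
      refine hcon ⟨f, ?_, ?_⟩
      · intro S hS h1
        by_contra h2
        exact (h S hS (card_pos.2 (nonempty_iff_ne_empty.2 h2))).1.ne_empty h1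
      · intro S hS h1 h2
        exact (h S hS (by omega)).2 h1 h2
    obtain ⟨S, hS, hS0, hSw⟩ := key
    have h2 := two_nb f S
    have h3 := card_le_card (od_sub f S)
    have h4 : (od f S).card ≤ 3 * S.card := by omega
    refine mem_biUnion.mpr ⟨S.card, mem_Icc.mpr ⟨hS0, hS⟩, ?_⟩
    rw [hbad]
    refine mem_biUnion.mpr ⟨od f S, ?_, ?_⟩
    · rw [hwk]
      refine mem_filter.2 ⟨?_, h4⟩
      rcases hSw with h | ⟨h, h'⟩
      · rw [h]
        split_ifs
        · exact mem_insert_self _ _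
        · exact mem_singleton_self _
      · rw [if_pos h]
        exact mem_insert_of_mem h'
    refine mem_biUnion.mpr ⟨S, mem_powersetCard.mpr ⟨subset_univ _, rfl⟩, ?_⟩
    have h6 : (nb f S \ od f S).card ≤ 3 * S.card / 2 := by
      rw [card_sdiff_of_subset (od_sub f S)]
      omega
    have h5 : 3 * S.card / 2 ≤ (univ : Finset (Fin n × Fin 3)).card := by
      rw [card_univ, Fintype.card_prod, Fintype.card_fin, Fintype.card_fin]
      omega
    obtain ⟨W', hIW, -, hW'⟩ := exists_subsuperset_card_eq (subset_univ (nb f S \ od f S)) h6 h5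
    refine mem_biUnion.mpr ⟨W', mem_powersetCard.mpr ⟨subset_univ _, hW'⟩, ?_⟩
    refine mem_filter.mpr ⟨mem_univ _, fun v hv t => ?_⟩
    have h7 : (f v t, t) ∈ nb f S :=
      mem_image.mpr ⟨(v, t), mem_product.mpr ⟨hv, mem_univ _⟩, rfl⟩
    by_cases h8 : (f v t, t) ∈ od f S
    · exact mem_union_left _ h8
    · exact mem_union_right _ (hIW (mem_sdiff.2 ⟨h7, h8⟩))
  have hbadcard : ∀ k, (bad k).card ≤ (wk k).card * ((C * n).choose k *
      ((3 * n).choose (3 * k / 2) * ((5 * k) ^ (3 * k) * n ^ (3 * (C * n - k))))) := by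
    intro k
    rw [hbad]
    refine card_biUnion_le.trans ?_
    refine (sum_le_card_nsmul _ _ ((C * n).choose k *
      ((3 * n).choose (3 * k / 2) * ((5 * k) ^ (3 * k) * n ^ (3 * (C * n - k))))) ?_).trans ?_
    · intro w hw
      have hwc : w.card ≤ 3 * k := (mem_filter.1 hw).2
      refine card_biUnion_le.trans ?_
      refine (sum_le_card_nsmul _ _ ((3 * n).choose (3 * k / 2) *
        ((5 * k) ^ (3 * k) * n ^ (3 * (C * n - k)))) ?_).trans ?_
      · intro S hS
        refine card_biUnion_le.trans ?_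
        refine (sum_le_card_nsmul _ _
          ((5 * k) ^ (3 * k) * n ^ (3 * (C * n - k))) ?_).trans ?_
        · intro W' hW'
          have h1 := card_into S (w ∪ W')
          rw [(mem_powersetCard.mp hS).2] at h1
          have h2 : (w ∪ W').card ≤ 5 * k := by
            have h3 := card_union_le w W'
            have h4 := (mem_powersetCard.mp hW').2
            omega
          exact h1.trans (Nat.mul_le_mul_right _ (Nat.pow_le_pow_left h2 _))
        · rw [card_powersetCard, card_univ, smul_eq_mul, Fintype.card_prod, Fintype.card_fin,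
            Fintype.card_fin, mul_comm n 3]
      · rw [card_powersetCard, card_univ, smul_eq_mul, Fintype.card_fin]
    · rw [smul_eq_mul]
  have hterm : ∀ k ∈ Icc 1 r, (bad k).card * 4 ^ k ≤ n ^ (3 * (C * n)) := by
    intro k hk
    rw [mem_Icc] at hk
    have h1 : M ^ 2 * k ≤ n := (Nat.mul_le_mul_left _ hk.2).trans hrn
    have h2 := est (C := C) (n := n) (k := k) (u := 3 * k / 2) hk.1 (Nat.mul_div_le _ _)
      (by omega) hM hC h1
    have h3 : n ^ (3 * (C * n)) = n ^ (3 * k) * n ^ (3 * (C * n - k)) := by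
      rw [← pow_add]
      congr 1
      omega
    have h4 : (16 : ℕ) ^ k ≤ 90 ^ k := Nat.pow_le_pow_left (by norm_num) _
    calc (bad k).card * 4 ^ k ≤ ((wk k).card * ((C * n).choose k * ((3 * n).choose (3 * k / 2) *
          ((5 * k) ^ (3 * k) * n ^ (3 * (C * n - k)))))) * 4 ^ k :=
          Nat.mul_le_mul_right _ (hbadcard k)
      _ = ((C * n).choose k * ((3 * n).choose (3 * k / 2) * (5 * k) ^ (3 * k)) *
          ((wk k).card * 4 ^ k)) * n ^ (3 * (C * n - k)) := by ring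
      _ ≤ ((C * n).choose k * ((3 * n).choose (3 * k / 2) * (5 * k) ^ (3 * k)) *
          90 ^ k) * n ^ (3 * (C * n - k)) :=
          Nat.mul_le_mul_right _ (Nat.mul_le_mul_left _ ((hwkc k).trans h4))
      _ ≤ n ^ (3 * k) * n ^ (3 * (C * n - k)) := Nat.mul_le_mul_right _ h2
      _ = n ^ (3 * (C * n)) := h3.symm
  have h1 : (univ : Finset (Fin (C * n) → Fin 3 → Fin n)).card = n ^ (3 * (C * n)) := by
    rw [card_univ, Fintype.card_fun, Fintype.card_fun, Fintype.card_fin, Fintype.card_fin,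
      Fintype.card_fin, ← pow_mul]
  have h2 : (univ : Finset (Fin (C * n) → Fin 3 → Fin n)).card ≤ ∑ k ∈ Icc 1 r, (bad k).card :=
    (card_le_card hcover).trans card_biUnion_le
  have h3 := sum_lt_of_pow (pow_pos (show 0 < n by omega) (3 * (C * n))) hterm
  omega

end Pool.Agent.J6H78.S2Exp
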